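import Mathlib

/-!
Coefficients of powers of polynomials, counted from the leading one, and polynomials with small
coefficients which vanish at a large integer.
-/

set_option autoImplicit false

namespace Pool.Agent.N741.FD

open Finset Polynomial

theorem natAbs_sum_le {ι : Type*} (s : Finset ι) (F : ι → ℤ) :
    (∑ i ∈ s, F i).natAbs ≤ ∑ i ∈ s, (F i).natAbs := by
  classical
  induction s using Finset.induction_on with
  | empty => simp
  | insert i s hi ih =>
    rw [sum_insert hi, sum_insert hi]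
    exact (Int.natAbs_add_le _ _).trans (Nat.add_le_add_left ih _)

theorem coeff_pow_bound {Q : ℤ[X]} {a B D : ℕ} (hB : 1 ≤ B) (hD : 1 ≤ D)
    (h0 : (Q.coeff 0).natAbs ≤ a) (hj : ∀ j, (Q.coeff j).natAbs ≤ a * B) (hdeg : Q.natDegree ≤ D)
    (p : ℕ) (hp : 1 ≤ p) (i : ℕ) : ((Q ^ p).coeff i).natAbs ≤ a ^ p * (p * D * B) ^ i := by
  induction p, hp using Nat.le_induction generalizing i with
  | base =>
    rw [pow_one, pow_one, one_mul]
    rcases Nat.eq_zero_or_pos i with rfl | hi
    · simpa using h0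
    · refine (hj i).trans (Nat.mul_le_mul_left _ ?_)
      calc B ≤ D * B := Nat.le_mul_of_pos_left _ (by omega)
        _ ≤ (D * B) ^ i := Nat.le_self_pow (by omega) _
  | succ p hp ih =>
    have hpos : 1 ≤ p * D * B := Nat.mul_pos (Nat.mul_pos hp hD) hB
    rcases Nat.eq_zero_or_pos i with rfl | hi
    · rw [pow_succ, mul_coeff_zero, Int.natAbs_mul, pow_succ]
      have := ih 0
      simp only [pow_zero, mul_one] at this ⊢
      exact Nat.mul_le_mul this h0
    · rw [pow_succ' Q, coeff_mul, Finset.Nat.sum_antidiagonal_eq_sum_range_succ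
        (fun u v => Q.coeff u * (Q ^ p).coeff v), sum_range_succ']
      refine (Int.natAbs_add_le _ _).trans ?_
      have h1 : (Q.coeff 0 * (Q ^ p).coeff (i - 0)).natAbs ≤ a * (a ^ p * (p * D * B) ^ i) := by
        rw [Int.natAbs_mul, Nat.sub_zero]
        exact Nat.mul_le_mul h0 (ih i)
      have h2 : (∑ k ∈ range i, Q.coeff (k + 1) * (Q ^ p).coeff (i - (k + 1))).natAbs ≤
          D * (a * B * (a ^ p * (p * D * B) ^ (i - 1))) := by
        refine (natAbs_sum_le _ _).trans ?_
        have h3 : ∀ k ∈ range i, (Q.coeff (k + 1) * (Q ^ p).coeff (i - (k + 1))).natAbs ≤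
            if k < D then a * B * (a ^ p * (p * D * B) ^ (i - 1)) else 0 := by
          intro k _
          split_ifs with hk
          · rw [Int.natAbs_mul]
            refine Nat.mul_le_mul (hj _) ((ih _).trans (Nat.mul_le_mul_left _ ?_))
            exact Nat.pow_le_pow_right hpos (by omega)
          · rw [coeff_eq_zero_of_natDegree_lt (by omega : Q.natDegree < k + 1)]
            simp
        refine (sum_le_sum h3).trans ?_
        rw [← sum_filter, sum_const, smul_eq_mul]
        apply Nat.mul_le_mul_right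
        calc ((range i).filter (fun k => k < D)).card ≤ (range D).card := by
              apply card_le_card
              intro k hk
              rw [mem_filter] at hk
              exact mem_range.mpr hk.2
          _ = D := card_range D
      obtain ⟨m, rfl⟩ := Nat.exists_eq_add_of_le' hi
      simp only [Nat.add_sub_cancel] at h2 ⊢
      calc _ ≤ D * (a * B * (a ^ p * (p * D * B) ^ m)) + a * (a ^ p * (p * D * B) ^ (m + 1)) :=
            Nat.add_le_add h2 h1
        _ = a ^ (p + 1) * ((p * D * B) ^ m * ((p + 1) * D * B)) := by ring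
        _ ≤ a ^ (p + 1) * (((p + 1) * D * B) ^ m * ((p + 1) * D * B)) := by
            apply Nat.mul_le_mul_left
            apply Nat.mul_le_mul_right
            apply Nat.pow_le_pow_left
            apply Nat.mul_le_mul_right
            apply Nat.mul_le_mul_right
            omega
        _ = _ := by ring

theorem reverse_pow' (F : ℤ[X]) (p : ℕ) : reverse (F ^ p) = reverse F ^ p := by
  induction p with
  | zero => rw [pow_zero, pow_zero, ← C_1, reverse_C]
  | succ p ih => rw [pow_succ, reverse_mul_of_domain, ih, pow_succ]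

/-- the coefficients of a power, from the leading one -/
theorem pow_coeff_bound {F : ℤ[X]} {a B D p M : ℕ} (hF : F ≠ 0) (ha : F.leadingCoeff.natAbs = a)
    (hB : 1 ≤ B) (hD : 1 ≤ D) (hcoef : ∀ j, (F.coeff j).natAbs ≤ B) (hdeg : F.natDegree ≤ D)
    (hp : 1 ≤ p) (hM : F.natDegree * p ≤ M) (i : ℕ) (hi : i ≤ M) :
    ((F ^ p).coeff (M - i)).natAbs ≤ a ^ p * (p * D * B) ^ i := by
  have ha1 : 1 ≤ a := by
    rw [← ha]
    exact Int.natAbs_pos.mpr (leadingCoeff_ne_zero.mpr hF)
  have hpos : 1 ≤ p * D * B := Nat.mul_pos (Nat.mul_pos hp hD) hB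
  have hdp : (F ^ p).natDegree = F.natDegree * p := by rw [natDegree_pow, mul_comm]
  rcases Nat.lt_or_ge (F.natDegree * p) (M - i) with h | h
  · rw [coeff_eq_zero_of_natDegree_lt (by rw [hdp]; exact h)]
    simp
  · obtain ⟨i', hi'⟩ : ∃ i', M - i + i' = F.natDegree * p := ⟨F.natDegree * p - (M - i), by omega⟩
    have h1 : (F ^ p).coeff (M - i) = (reverse F ^ p).coeff i' := by
      rw [← reverse_pow', coeff_reverse, revAt_le (by rw [hdp]; omega), hdp]
      congr 1
      omega
    rw [h1]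
    refine (coeff_pow_bound (a := a) hB hD ?_ ?_ ?_ p hp i').trans (Nat.mul_le_mul_left _
      (Nat.pow_le_pow_right hpos (by omega)))
    · rw [coeff_zero_reverse, ha]
    · intro j
      rw [coeff_reverse]
      exact (hcoef _).trans (Nat.le_mul_of_pos_left _ (by omega))
    · exact (reverse_natDegree_le F).trans hdeg

/-- a polynomial with slowly growing coefficients (from the top) vanishing at a large integer -/
theorem drop {P : ℤ[X]} {A E I M w : ℕ} (hP : P ≠ 0) (hM : P.natDegree ≤ M) (hE : 1 ≤ E) (hA : 1 ≤ A)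
    (hc : ∀ i ≤ M, (P.coeff (M - i)).natAbs ≤ A * E ^ i) (hw : 2 * (A * E ^ (I + 1)) < w)
    (h0 : P.eval (w : ℤ) = 0) : P.natDegree + I + 1 ≤ M := by
  by_contra hcon
  push Not at hcon
  obtain ⟨n, hn⟩ : ∃ n, n = P.natDegree := ⟨_, rfl⟩
  rw [← hn] at hM hcon
  obtain ⟨k, hk⟩ : ∃ k, M = n + k := ⟨M - n, by omega⟩
  have hkI : k ≤ I := by omega
  have hEw : 2 * E ≤ w := by
    have h1 : E ≤ E ^ (I + 1) := Nat.le_self_pow (by omega) E
    have h2 : E ^ (I + 1) ≤ A * E ^ (I + 1) := Nat.le_mul_of_pos_left _ (by omega)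
    omega
  have hwpos : 0 < w := by omega
  -- the value
  have h1 : P.leadingCoeff * (w : ℤ) ^ n = - ∑ m ∈ range n, P.coeff m * (w : ℤ) ^ m := by
    rw [eval_eq_sum_range, ← hn, sum_range_succ] at h0
    have : P.leadingCoeff = P.coeff n := by rw [hn]; rfl
    rw [this]
    linarith
  have h2 : (w : ℤ) ^ n ≤ ∑ m ∈ range n, (A * E ^ (n + k - m) : ℕ) * (w : ℤ) ^ m := by
    have e1 : |P.leadingCoeff * (w : ℤ) ^ n| ≤ ∑ m ∈ range n, (A * E ^ (n + k - m) : ℕ) * (w : ℤ) ^ m := by
      rw [h1, abs_neg]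
      refine (abs_sum_le_sum_abs _ _).trans (sum_le_sum fun m hm => ?_)
      rw [mem_range] at hm
      rw [abs_mul, abs_pow, Nat.abs_cast]
      apply mul_le_mul_of_nonneg_right _ (by positivity)
      have := hc (M - m) (by omega)
      rw [show M - (M - m) = m by omega, hk] at this
      rw [Int.abs_eq_natAbs]
      exact_mod_cast this
    refine le_trans ?_ e1
    rw [abs_mul, abs_pow, Nat.abs_cast]
    have h3 : 1 ≤ |P.leadingCoeff| := Int.one_le_abs (leadingCoeff_ne_zero.mpr hP)
    nlinarith [pow_pos (show (0 : ℤ) < w by exact_mod_cast hwpos) n]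
  have h3 : ∑ m ∈ range n, ((A * E ^ (n + k - m) : ℕ) : ℤ) * (w : ℤ) ^ m =
      (A * E ^ (k + 1) : ℤ) * ∑ m ∈ range n, (w : ℤ) ^ m * (E : ℤ) ^ (n - 1 - m) := by
    rw [mul_sum]
    apply sum_congr rfl
    intro m hm
    rw [mem_range] at hm
    have : n + k - m = (k + 1) + (n - 1 - m) := by omega
    rw [this]
    push_cast
    ring
  rw [h3] at h2
  set Sg := ∑ m ∈ range n, (w : ℤ) ^ m * (E : ℤ) ^ (n - 1 - m) with hSg
  have h4 : Sg * ((w : ℤ) - E) = (w : ℤ) ^ n - (E : ℤ) ^ n := (Commute.all _ _).geom_sum₂_mul n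
  have hSg0 : 0 ≤ Sg := sum_nonneg fun m _ => by positivity
  have hEw' : 2 * (E : ℤ) ≤ w := by exact_mod_cast hEw
  have h5 : (w : ℤ) * Sg ≤ 2 * (w : ℤ) ^ n := by
    have e1 : (w : ℤ) * Sg ≤ 2 * (Sg * ((w : ℤ) - E)) := by nlinarith
    have e2 : (0 : ℤ) ≤ (E : ℤ) ^ n := by positivity
    linarith
  have h6 : (w : ℤ) * (w : ℤ) ^ n ≤ 2 * (A * E ^ (k + 1) : ℤ) * (w : ℤ) ^ n := by
    calc (w : ℤ) * (w : ℤ) ^ n ≤ w * ((A * E ^ (k + 1) : ℤ) * Sg) :=
          mul_le_mul_of_nonneg_left h2 (by positivity)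
      _ = (A * E ^ (k + 1) : ℤ) * (w * Sg) := by ring
      _ ≤ (A * E ^ (k + 1) : ℤ) * (2 * (w : ℤ) ^ n) := mul_le_mul_of_nonneg_left h5 (by positivity)
      _ = _ := by ring
  have h7 : (w : ℤ) ≤ 2 * (A * E ^ (k + 1) : ℤ) :=
    le_of_mul_le_mul_right h6 (pow_pos (by exact_mod_cast hwpos) n)
  have h8 : w ≤ 2 * (A * E ^ (k + 1)) := by exact_mod_cast h7
  have h9 : E ^ (k + 1) ≤ E ^ (I + 1) := Nat.pow_le_pow_right hE (by omega)
  have h10 : A * E ^ (k + 1) ≤ A * E ^ (I + 1) := Nat.mul_le_mul_left _ h9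
  omega

end Pool.Agent.N741.FD
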