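import Mathlib
import Pool.Agent.N741.PB.Line

/-!
Values of factors of polynomials with small coefficients at a large integer.
-/

set_option autoImplicit false

namespace Pool.Agent.N741.FD

open Finset Polynomial

theorem nrm (n : ℤ) : ‖(n : ℂ)‖ = (n.natAbs : ℝ) := by
  rw [Complex.norm_intCast, Nat.cast_natAbs, Int.cast_abs]

theorem root_bound {F : ℤ[X]} {B : ℕ} (hF : F ≠ 0) (hcoef : ∀ j, (F.coeff j).natAbs ≤ B) {z : ℂ}
    (hz : (F.map (Int.castRingHom ℂ)).IsRoot z) : ‖z‖ < B + 1 := by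
  have hinj : Function.Injective (Int.castRingHom ℂ) := (Int.castRingHom ℂ).injective_int
  have hF0 : F.map (Int.castRingHom ℂ) ≠ 0 := (Polynomial.map_ne_zero_iff hinj).mpr hF
  have h1 := hz.norm_lt_cauchyBound hF0
  refine lt_of_lt_of_le h1 ?_
  have h2 : cauchyBound (F.map (Int.castRingHom ℂ)) ≤ (B : NNReal) + 1 := by
    unfold cauchyBound
    gcongr
    have hlc : 1 ≤ ‖(F.map (Int.castRingHom ℂ)).leadingCoeff‖₊ := by
      rw [leadingCoeff_map_of_injective hinj]
      have h3 : (1 : ℝ) ≤ ‖((F.leadingCoeff : ℤ) : ℂ)‖ := by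
        rw [nrm]
        exact_mod_cast Int.natAbs_pos.mpr (leadingCoeff_ne_zero.mpr hF)
      exact h3
    have hsup : sup (range (F.map (Int.castRingHom ℂ)).natDegree)
        (fun x => ‖(F.map (Int.castRingHom ℂ)).coeff x‖₊) ≤ (B : NNReal) := by
      apply Finset.sup_le
      intro i _
      rw [coeff_map]
      have h3 : ‖((F.coeff i : ℤ) : ℂ)‖ ≤ (B : ℝ) := by
        rw [nrm]
        exact_mod_cast hcoef i
      exact h3
    calc _ ≤ (B : NNReal) / 1 := by gcongr
      _ = B := div_one _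
  exact_mod_cast h2

theorem factor_value {F Q : ℤ[X]} {B w : ℕ} (hF : F ≠ 0) (hcoef : ∀ j, (F.coeff j).natAbs ≤ B)
    (hQ : Q ∣ F) (hdeg : 0 < Q.natDegree) (hw : B + 3 ≤ w) : 2 ≤ (Q.eval (w : ℤ)).natAbs := by
  have hinj : Function.Injective (Int.castRingHom ℂ) := (Int.castRingHom ℂ).injective_int
  have hQ0 : Q ≠ 0 := ne_zero_of_dvd_ne_zero hF hQ
  set q := Q.map (Int.castRingHom ℂ) with hq
  have hsp : q.Splits := IsAlgClosed.splits q
  have h1 := hsp.eval_eq_prod_roots (w : ℂ)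
  have hcard : q.roots.card = Q.natDegree := by
    rw [← hsp.natDegree_eq_card_roots, hq, natDegree_map_eq_of_injective hinj]
  have hroot : ∀ z ∈ q.roots, 2 ≤ ‖(w : ℂ) - z‖ := by
    intro z hz
    have h2 : q.IsRoot z := isRoot_of_mem_roots hz
    have h3 : (F.map (Int.castRingHom ℂ)).IsRoot z := h2.dvd (Polynomial.map_dvd _ hQ)
    have h4 := root_bound hF hcoef h3
    have h5 : (w : ℝ) - ‖z‖ ≤ ‖(w : ℂ) - z‖ := by
      have := norm_sub_norm_le (w : ℂ) z
      rwa [Complex.norm_natCast] at this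
    have h6 : ((B : ℝ) + 3) ≤ w := by exact_mod_cast hw
    linarith
  have hprod : ∀ s : Multiset ℂ, (∀ z ∈ s, 2 ≤ ‖(w : ℂ) - z‖) →
      (2 : ℝ) ^ s.card ≤ ‖(s.map (fun z => (w : ℂ) - z)).prod‖ := by
    intro s
    induction s using Multiset.induction_on with
    | empty => intro _; simp
    | cons z s ih =>
      intro h
      rw [Multiset.map_cons, Multiset.prod_cons, norm_mul, Multiset.card_cons, pow_succ', ]
      exact mul_le_mul (h z (Multiset.mem_cons_self z s))
        (ih fun y hy => h y (Multiset.mem_cons_of_mem hy)) (by positivity) (norm_nonneg _)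
  have h2 := hprod q.roots hroot
  have h3 : (2 : ℝ) ≤ ‖q.eval (w : ℂ)‖ := by
    rw [h1, norm_mul]
    have hlc : 1 ≤ ‖q.leadingCoeff‖ := by
      rw [hq, leadingCoeff_map_of_injective hinj]
      have h3 : (1 : ℝ) ≤ ‖((Q.leadingCoeff : ℤ) : ℂ)‖ := by
        rw [nrm]
        exact_mod_cast Int.natAbs_pos.mpr (leadingCoeff_ne_zero.mpr hQ0)
      exact h3
    have h4 : (2 : ℝ) ≤ 2 ^ q.roots.card := by
      rw [hcard]
      exact le_self_pow₀ (by norm_num) (by omega)
    nlinarith [norm_nonneg (q.roots.map (fun z => (w : ℂ) - z)).prod]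
  have h4 : q.eval (w : ℂ) = ((Q.eval (w : ℤ) : ℤ) : ℂ) := by
    rw [hq]
    have := eval_intCast_map (Int.castRingHom ℂ) Q (w : ℤ)
    simpa using this
  rw [h4, nrm] at h3
  exact_mod_cast h3

/-- polynomials with coprime values are coprime -/
theorem coprime_of_value {F G : ℤ[X]} {B w : ℕ} (hF : F ≠ 0) (hcoef : ∀ j, (F.coeff j).natAbs ≤ B)
    (hw : B + 3 ≤ w) (h : IsCoprime (F.eval (w : ℤ)) (G.eval (w : ℤ))) :
    IsCoprime (F.map (Int.castRingHom ℚ)) (G.map (Int.castRingHom ℚ)) := by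
  by_contra hcon
  obtain ⟨q, hq, hqF, hqG⟩ := Pool.Agent.N741.PB.common_factor hF hcon
  have h1 := factor_value hF hcoef hqF hq hw
  have h2 : IsUnit (q.eval (w : ℤ)) := h.isUnit_of_dvd' (eval_dvd hqF) (eval_dvd hqG)
  have h3 := Int.isUnit_iff_natAbs_eq.mp h2
  omega

end Pool.Agent.N741.FD
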