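import Mathlib

/-!
A lower bound for the degree of `c₁ f ^ p + c₂ g ^ q + c₃ h ^ r`.
-/

set_option autoImplicit false

namespace Pool.Agent.N741.FD

open Polynomial

theorem coprime_parts {U V : ℚ[X]} (hU : U ≠ 0) :
    ∃ g U₀ V₀ : ℚ[X], g ≠ 0 ∧ U = g * U₀ ∧ V = g * V₀ ∧ IsCoprime U₀ V₀ := by
  classical
  obtain ⟨g, hg⟩ : ∃ g, g = EuclideanDomain.gcd U V := ⟨_, rfl⟩
  have hg0 : g ≠ 0 := by
    intro h0
    rw [hg, EuclideanDomain.gcd_eq_zero_iff] at h0
    exact hU h0.1
  obtain ⟨U₀, hU₀⟩ : g ∣ U := by rw [hg]; exact EuclideanDomain.gcd_dvd_left U V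
  obtain ⟨V₀, hV₀⟩ : g ∣ V := by rw [hg]; exact EuclideanDomain.gcd_dvd_right U V
  have hab := EuclideanDomain.gcd_eq_gcd_ab U V
  rw [← hg] at hab
  refine ⟨g, U₀, V₀, hg0, hU₀, hV₀, EuclideanDomain.gcdA U V, EuclideanDomain.gcdB U V, ?_⟩
  obtain ⟨x, hx⟩ : ∃ x, x = EuclideanDomain.gcdA U V := ⟨_, rfl⟩
  obtain ⟨y, hy⟩ : ∃ y, y = EuclideanDomain.gcdB U V := ⟨_, rfl⟩
  rw [← hx, ← hy] at hab ⊢
  apply mul_left_cancel₀ hg0
  rw [mul_one]
  conv_rhs => rw [hab, hU₀, hV₀]
  ring

/-- proportional polynomials -/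
theorem proportional {U V : ℚ[X]} (hU : U ≠ 0) (hV : V ≠ 0)
    (h : U * derivative V = derivative U * V) :
    ∃ u v : ℚ, u ≠ 0 ∧ v ≠ 0 ∧ C v * U = C u * V := by
  obtain ⟨g, U₀, V₀, hg0, rfl, rfl, hco⟩ := coprime_parts (V := V) hU
  have h3 : g * g * (U₀ * derivative V₀ - derivative U₀ * V₀) = 0 := by
    rw [derivative_mul, derivative_mul] at h
    linear_combination h
  have h4 : wronskian U₀ V₀ = 0 := by
    rw [wronskian]
    rcases mul_eq_zero.mp h3 with h5 | h5
    · exact absurd (mul_self_eq_zero.mp h5) hg0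
    · exact h5
  obtain ⟨h5, h6⟩ := hco.wronskian_eq_zero_iff.mp h4
  have h7 := derivative_eq_zero.mp h5
  have h8 := derivative_eq_zero.mp h6
  obtain ⟨u, rfl⟩ := natDegree_eq_zero.mp h7
  obtain ⟨v, rfl⟩ := natDegree_eq_zero.mp h8
  refine ⟨u, v, ?_, ?_, by ring⟩
  · rintro rfl
    simp at hU
  · rintro rfl
    simp at hV

/-- the Wronskian type polynomial of two coprime powers is not zero -/
theorem w_ne_zero {f g : ℚ[X]} (hfg : IsCoprime f g) (hf : 0 < f.natDegree) {p q : ℕ} (hp : p ≠ 0) :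
    (C (q : ℚ) * f * derivative g - C (p : ℚ) * derivative f * g) ≠ 0 := by
  intro h
  have h1 : f ∣ derivative f * g := by
    have h2 : C (p : ℚ) * (derivative f * g) = f * (C (q : ℚ) * derivative g) := by
      linear_combination -h
    have hu : IsUnit (C (p : ℚ) : ℚ[X]) := isUnit_C.mpr (isUnit_iff_ne_zero.mpr (by exact_mod_cast hp))
    exact (hu.dvd_mul_left).mp ⟨_, h2⟩
  have h2 : f ∣ derivative f := hfg.dvd_of_dvd_mul_right h1
  have h3 : derivative f ≠ 0 := by
    intro h0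
    have := derivative_eq_zero.mp h0
    omega
  have h4 := natDegree_le_of_dvd h2 h3
  have h5 := natDegree_derivative_lt (p := f) (by omega)
  omega

theorem natDegree_deriv_mul_le {u v : ℚ[X]} (h : derivative u * v ≠ 0) :
    (derivative u * v).natDegree + 1 ≤ u.natDegree + v.natDegree := by
  have h1 : derivative u ≠ 0 := left_ne_zero_of_mul h
  have h2 : 0 < u.natDegree := by
    rcases Nat.eq_zero_or_pos u.natDegree with h3 | h3
    · exact absurd (derivative_of_natDegree_zero h3) h1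
    · exact h3
  have h3 := natDegree_derivative_lt (p := u) (by omega)
  have h4 := natDegree_mul_le (p := derivative u) (q := v)
  omega

/-- `A` has degree less than `n` -/
def Lt (A : ℚ[X]) (n : ℕ) : Prop := A ≠ 0 → A.natDegree < n

theorem Lt.add {A B : ℚ[X]} {n : ℕ} (hA : Lt A n) (hB : Lt B n) : Lt (A + B) n := by
  intro h
  by_cases hA0 : A = 0
  · rw [hA0, zero_add] at h ⊢; exact hB h
  by_cases hB0 : B = 0
  · rw [hB0, add_zero] at h ⊢; exact hA h
  exact lt_of_le_of_lt (natDegree_add_le A B) (max_lt (hA hA0) (hB hB0))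

theorem Lt.neg {A : ℚ[X]} {n : ℕ} (hA : Lt A n) : Lt (-A) n := by
  intro h
  rw [natDegree_neg]
  exact hA (neg_ne_zero.mp h)

theorem Lt.sub {A B : ℚ[X]} {n : ℕ} (hA : Lt A n) (hB : Lt B n) : Lt (A - B) n := by
  rw [sub_eq_add_neg]; exact hA.add hB.neg

theorem Lt.C_mul {A : ℚ[X]} {n : ℕ} (hA : Lt A n) (c : ℚ) : Lt (C c * A) n := by
  intro h
  exact lt_of_le_of_lt (natDegree_C_mul_le c A) (hA (right_ne_zero_of_mul h))

theorem Lt.mul_le {A B : ℚ[X]} {n m : ℕ} (hA : Lt A n) (hB : B.natDegree ≤ m) : Lt (A * B) (n + m) := by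
  intro h
  have h1 := hA (left_ne_zero_of_mul h)
  have h2 := natDegree_mul_le (p := A) (q := B)
  omega

theorem lt_deriv {u : ℚ[X]} {n : ℕ} (hu : u.natDegree ≤ n) : Lt (derivative u) n := by
  intro h
  have h2 : 0 < u.natDegree := by
    rcases Nat.eq_zero_or_pos u.natDegree with h3 | h3
    · exact absurd (derivative_of_natDegree_zero h3) h
    · exact h3
  have h3 := natDegree_derivative_lt (p := u) (by omega)
  omega

theorem Lt.mono {A : ℚ[X]} {n m : ℕ} (hA : Lt A n) (h : n ≤ m) : Lt A m := fun h0 =>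
  lt_of_lt_of_le (hA h0) h

theorem Lt.deriv {A : ℚ[X]} {n : ℕ} (hA : Lt A (n + 1)) : Lt (derivative A) n := by
  by_cases hA0 : A = 0
  · intro h; exact absurd (by rw [hA0, derivative_zero]) h
  exact lt_deriv (Nat.lt_succ_iff.mp (hA hA0))

/-- **the degree bound** -/
theorem wron {f g h P : ℚ[X]} {p q r D M : ℕ} {c₁ c₂ c₃ : ℚ} (hc₃ : c₃ ≠ 0)
    (hfg : IsCoprime f g) (hfh : IsCoprime f h) (hgh : IsCoprime g h) (hg0 : g ≠ 0)
    (hp : 2 ≤ p) (hq : 2 ≤ q) (hr : 2 ≤ r)
    (hP : P = C c₁ * f ^ p + C c₂ * g ^ q + C c₃ * h ^ r)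
    (hfD : f.natDegree ≤ D) (hgD : g.natDegree ≤ D) (hhD : h.natDegree ≤ D)
    (hf : f.natDegree * p = M) (hh : h.natDegree * r = M) (hM : 6 * D ≤ M + 2) (hD : 1 ≤ D) :
    M ≤ P.natDegree + (6 * D - 3) := by
  obtain ⟨p', rfl⟩ := Nat.exists_eq_add_of_le' hp
  obtain ⟨q', rfl⟩ := Nat.exists_eq_add_of_le' hq
  obtain ⟨r', rfl⟩ := Nat.exists_eq_add_of_le' hr
  have hMpos : 0 < M := by omega
  have hfpos : 0 < f.natDegree := by
    rcases Nat.eq_zero_or_pos f.natDegree with h0 | h0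
    · rw [h0, zero_mul] at hf; omega
    · exact h0
  have hhpos : 0 < h.natDegree := by
    rcases Nat.eq_zero_or_pos h.natDegree with h0 | h0
    · rw [h0, zero_mul] at hh; omega
    · exact h0
  have hh0 : h ≠ 0 := by rintro rfl; simp at hhpos
  set w₁ := C ((r' + 2 : ℕ) : ℚ) * f * derivative h - C ((p' + 2 : ℕ) : ℚ) * derivative f * h with hw₁
  set w₂ := C ((q' + 2 : ℕ) : ℚ) * f * derivative g - C ((p' + 2 : ℕ) : ℚ) * derivative f * g with hw₂
  have hw₁0 : w₁ ≠ 0 := w_ne_zero hfh hfpos (by omega)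
  have hw₂0 : w₂ ≠ 0 := w_ne_zero hfg hfpos (by omega)
  have hw₂lt : Lt w₂ (2 * D) := by
    have e1 : Lt (C ((q' + 2 : ℕ) : ℚ) * f * derivative g) (2 * D) := by
      have := ((lt_deriv hgD).mul_le hfD).C_mul ((q' + 2 : ℕ) : ℚ)
      refine Lt.mono ?_ (show D + D ≤ 2 * D by omega)
      convert this using 1
      ring
    have e2 : Lt (C ((p' + 2 : ℕ) : ℚ) * derivative f * g) (2 * D) := by
      have := ((lt_deriv hfD).mul_le hgD).C_mul ((p' + 2 : ℕ) : ℚ)
      refine Lt.mono ?_ (show D + D ≤ 2 * D by omega)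
      convert this using 1
      ring
    exact e1.sub e2
  set V := g ^ (q' + 1) * w₂ with hV
  set U := h ^ (r' + 1) * w₁ with hU
  set ρ := f * derivative P - C ((p' + 2 : ℕ) : ℚ) * derivative f * P with hρ
  have hρ' : ρ = C c₂ * V + C c₃ * U := by
    rw [hρ, hP, hV, hU, hw₁, hw₂]
    simp only [derivative_add, derivative_mul, derivative_C, derivative_pow, zero_mul, zero_add,
      Nat.cast_add, Nat.cast_ofNat, map_add]
    have e1 : p' + 2 - 1 = p' + 1 := by omega
    have e2 : q' + 2 - 1 = q' + 1 := by omega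
    have e3 : r' + 2 - 1 = r' + 1 := by omega
    rw [e1, e2, e3]
    ring
  set L : ℚ[X] → ℚ[X] := fun u => g * w₂ * derivative u -
    (C ((q' + 1 : ℕ) : ℚ) * derivative g * w₂ + g * derivative w₂) * u with hL
  have hLV : L V = 0 := by
    simp only [hL, hV, derivative_mul, derivative_pow, Nat.add_sub_cancel]
    ring
  have hLlin : L ρ = C c₂ * L V + C c₃ * L U := by
    rw [hρ']
    simp only [hL, derivative_add, derivative_mul, derivative_C, zero_mul, zero_add]
    ring
  rw [hLV, mul_zero, zero_add] at hLlin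
  set w₃ := g * w₂ * (C ((r' + 1 : ℕ) : ℚ) * derivative h * w₁ + h * derivative w₁) -
    (C ((q' + 1 : ℕ) : ℚ) * derivative g * w₂ + g * derivative w₂) * (h * w₁) with hw₃
  have hLU : L U = h ^ r' * w₃ := by
    simp only [hL, hU, hw₃, derivative_mul, derivative_pow, Nat.add_sub_cancel]
    ring
  by_cases hw₃0 : w₃ = 0
  · -- proportional: impossible by degrees
    exfalso
    rw [hw₃0, mul_zero] at hLU
    have h1 : g * w₂ * (U * derivative V - derivative U * V) = 0 := by
      have e : g * w₂ * (U * derivative V - derivative U * V) = U * L V - V * L U := by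
        simp only [hL]; ring
      rw [e, hLV, hLU, mul_zero, mul_zero, sub_zero]
    have h2 : U * derivative V = derivative U * V := by
      rcases mul_eq_zero.mp h1 with h3 | h3
      · exact absurd h3 (mul_ne_zero hg0 hw₂0)
      · exact sub_eq_zero.mp h3
    have hU0 : U ≠ 0 := mul_ne_zero (pow_ne_zero _ hh0) hw₁0
    have hV0 : V ≠ 0 := mul_ne_zero (pow_ne_zero _ hg0) hw₂0
    obtain ⟨u, v, hu, hv, huv⟩ := proportional hU0 hV0 h2
    have h3 : h ^ (r' + 1) ∣ g ^ (q' + 1) * w₂ := by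
      have hCu : IsUnit (C u : ℚ[X]) := isUnit_C.mpr (isUnit_iff_ne_zero.mpr hu)
      rw [← hCu.dvd_mul_left (b := g ^ (q' + 1) * w₂), ← hV, ← huv, hU]
      exact ⟨C v * w₁, by ring⟩
    have h4 : h ^ (r' + 1) ∣ w₂ := by
      have hco : IsCoprime (h ^ (r' + 1)) (g ^ (q' + 1)) := hgh.symm.pow
      exact hco.dvd_of_dvd_mul_left h3
    have h5 := natDegree_le_of_dvd h4 hw₂0
    rw [natDegree_pow] at h5
    have h6 := hw₂lt hw₂0
    have h7 : h.natDegree * (r' + 2) = (r' + 1) * h.natDegree + h.natDegree := by ring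
    omega
  · -- degrees
    have hρlt : Lt ρ (D + P.natDegree) := by
      have e1 : Lt (f * derivative P) (D + P.natDegree) := by
        have := (lt_deriv (le_refl P.natDegree)).mul_le hfD
        refine Lt.mono ?_ (show P.natDegree + D ≤ D + P.natDegree by omega)
        rw [mul_comm]; exact this
      have e2 : Lt (C ((p' + 2 : ℕ) : ℚ) * derivative f * P) (D + P.natDegree) := by
        have := ((lt_deriv hfD).mul_le (le_refl P.natDegree)).C_mul ((p' + 2 : ℕ) : ℚ)
        rw [mul_assoc]; exact this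
      exact e1.sub e2
    have hne : h ^ r' * w₃ ≠ 0 := mul_ne_zero (pow_ne_zero _ hh0) hw₃0
    have hLρ0 : L ρ ≠ 0 := by
      rw [hLlin, hLU]
      exact mul_ne_zero (by rwa [Ne, C_eq_zero]) hne
    have hρ0 : ρ ≠ 0 := by
      intro h0
      apply hLρ0
      simp only [hL, h0, derivative_zero, mul_zero, sub_zero]
    have hρd : ρ.natDegree < D + P.natDegree := hρlt hρ0
    have hw₂d : w₂.natDegree < 2 * D := hw₂lt hw₂0
    have hLlt : Lt (L ρ) (D + w₂.natDegree + ρ.natDegree) := by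
      have e1 : Lt (g * w₂ * derivative ρ) (D + w₂.natDegree + ρ.natDegree) := by
        have h1 : (g * w₂).natDegree ≤ D + w₂.natDegree :=
          natDegree_mul_le.trans (Nat.add_le_add_right hgD _)
        have := (lt_deriv (le_refl ρ.natDegree)).mul_le h1
        refine Lt.mono ?_ (show ρ.natDegree + (D + w₂.natDegree) ≤ _ by omega)
        rw [mul_comm]; exact this
      have e2 : Lt ((C ((q' + 1 : ℕ) : ℚ) * derivative g * w₂ + g * derivative w₂) * ρ)
          (D + w₂.natDegree + ρ.natDegree) := by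
        refine Lt.mul_le (n := D + w₂.natDegree) ?_ (le_refl _)
        apply Lt.add
        · have := ((lt_deriv hgD).mul_le (le_refl w₂.natDegree)).C_mul ((q' + 1 : ℕ) : ℚ)
          rw [mul_assoc]; exact this
        · have := (lt_deriv (le_refl w₂.natDegree)).mul_le hgD
          refine Lt.mono ?_ (show w₂.natDegree + D ≤ _ by omega)
          rw [mul_comm]; exact this
      simp only [hL]
      exact e1.sub e2
    have h1 := hLlt hLρ0
    rw [hLlin, hLU, natDegree_C_mul hc₃, natDegree_mul (pow_ne_zero _ hh0) hw₃0, natDegree_pow] at h1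
    have h7 : h.natDegree * (r' + 2) = r' * h.natDegree + 2 * h.natDegree := by ring
    omega

end Pool.Agent.N741.FD
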