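import Mathlib
import Pool.Agent.N741.FD.Root
import Pool.Agent.N741.FD.Coef
import Pool.Agent.N741.FD.Wr
import Pool.Agent.N741.PB.Tri

/-!
A sum of three powers of polynomials with small coefficients does not vanish at a large integer.
-/

set_option autoImplicit false

namespace Pool.Agent.N741.FD

open Finset Polynomial
open Pool.Agent.N741.PB

theorem map_natDegree' (P : ℤ[X]) : (P.map (Int.castRingHom ℚ)).natDegree = P.natDegree :=
  natDegree_map_eq_of_injective (Int.castRingHom ℚ).injective_int P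

/-- no cancellation at a large integer -/
theorem core {F G H : ℤ[X]} (hF : F ≠ 0) (hG : G ≠ 0) (hH : H ≠ 0)
    (hpos : 0 < F.natDegree ∨ 0 < G.natDegree ∨ 0 < H.natDegree)
    (hFG : IsCoprime (F.map (Int.castRingHom ℚ)) (G.map (Int.castRingHom ℚ)))
    (hFH : IsCoprime (F.map (Int.castRingHom ℚ)) (H.map (Int.castRingHom ℚ)))
    (hGH : IsCoprime (G.map (Int.castRingHom ℚ)) (H.map (Int.castRingHom ℚ)))
    {l m k : ℕ} (hl : 0 < l) (hm : 0 < m) (hk : 0 < k)
    (hle : m * k + k * l + l * m ≤ l * m * k) {s t : ℤ} (hs : s = 1 ∨ s = -1) (ht : t = 1 ∨ t = -1)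
    {A B D X w : ℕ} (hA : 1 ≤ A) (hB : 1 ≤ B) (hD : 1 ≤ D) (hlX : l ≤ X) (hmX : m ≤ X) (hkX : k ≤ X)
    (hFD : F.natDegree ≤ D) (hGD : G.natDegree ≤ D) (hHD : H.natDegree ≤ D)
    (hFc : ∀ j, (F.coeff j).natAbs ≤ B) (hGc : ∀ j, (G.coeff j).natAbs ≤ B)
    (hHc : ∀ j, (H.coeff j).natAbs ≤ B)
    (hFA : F.leadingCoeff.natAbs ^ l ≤ A) (hGA : G.leadingCoeff.natAbs ^ m ≤ A)
    (hHA : H.leadingCoeff.natAbs ^ k ≤ A)
    (hw : 2 * (3 * A * (X * D * B) ^ (6 * D - 2)) < w) :
    (Pf F G H l m k s t).eval (w : ℤ) ≠ 0 := by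
  intro h0
  have hP0 := pf_ne_zero hF hG hH hpos hFG hl hm hk hle hs ht
  obtain ⟨hl2, hm2, hk2⟩ := two_le_of hl hm hk hle
  set P := Pf F G H l m k s t with hP
  set M := max (max (F.natDegree * l) (G.natDegree * m)) (H.natDegree * k) with hM
  have hMF : F.natDegree * l ≤ M := (le_max_left _ _).trans (le_max_left _ _)
  have hMG : G.natDegree * m ≤ M := (le_max_right _ _).trans (le_max_left _ _)
  have hMH : H.natDegree * k ≤ M := le_max_right _ _
  have hX : 1 ≤ X := by omega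
  have hE : 1 ≤ X * D * B := Nat.mul_pos (Nat.mul_pos hX hD) hB
  have hcf : ∀ i, P.coeff i = (F ^ l).coeff i + s * (G ^ m).coeff i - t * (H ^ k).coeff i := by
    intro i
    rw [hP, Pf, coeff_sub, coeff_add, coeff_C_mul, coeff_C_mul]
  have hs1 : s.natAbs = 1 := by rcases hs with rfl | rfl <;> rfl
  have ht1 : t.natAbs = 1 := by rcases ht with rfl | rfl <;> rfl
  have hbd : ∀ {Q : ℤ[X]} {e : ℕ}, Q ≠ 0 → 0 < e → e ≤ X → Q.natDegree ≤ D →
      (∀ j, (Q.coeff j).natAbs ≤ B) → Q.leadingCoeff.natAbs ^ e ≤ A → Q.natDegree * e ≤ M →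
      ∀ i ≤ M, ((Q ^ e).coeff (M - i)).natAbs ≤ A * (X * D * B) ^ i := by
    intro Q e hQ he heX hQD hQc hQA hQM i hi
    refine (pow_coeff_bound hQ rfl hB hD hQc hQD he hQM i hi).trans (Nat.mul_le_mul hQA ?_)
    apply Nat.pow_le_pow_left
    apply Nat.mul_le_mul_right
    exact Nat.mul_le_mul_right _ heX
  have hc : ∀ i ≤ M, (P.coeff (M - i)).natAbs ≤ 3 * A * (X * D * B) ^ i := by
    intro i hi
    have h1 := hbd hF hl hlX hFD hFc hFA hMF i hi
    have h2 := hbd hG hm hmX hGD hGc hGA hMG i hi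
    have h3 := hbd hH hk hkX hHD hHc hHA hMH i hi
    rw [hcf]
    have h4 := Int.natAbs_sub_le ((F ^ l).coeff (M - i) + s * (G ^ m).coeff (M - i))
      (t * (H ^ k).coeff (M - i))
    have h5 := Int.natAbs_add_le ((F ^ l).coeff (M - i)) (s * (G ^ m).coeff (M - i))
    rw [Int.natAbs_mul, ht1, one_mul] at h4
    rw [Int.natAbs_mul, hs1, one_mul] at h5
    have h6 : 3 * A * (X * D * B) ^ i = A * (X * D * B) ^ i + A * (X * D * B) ^ i +
      A * (X * D * B) ^ i := by ring
    omega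
  have hPM : P.natDegree ≤ M := by
    rw [natDegree_le_iff_coeff_eq_zero]
    intro N hN
    have h1 : ∀ {Q : ℤ[X]} {e : ℕ}, Q.natDegree * e ≤ M → (Q ^ e).coeff N = 0 := by
      intro Q e h
      apply coeff_eq_zero_of_natDegree_lt
      rw [natDegree_pow, mul_comm]
      omega
    rw [hcf, h1 hMF, h1 hMG, h1 hMH]
    simp
  obtain ⟨D', rfl⟩ := Nat.exists_eq_add_of_le' hD
  have hdrop := drop (A := 3 * A) (I := 6 * D' + 3) hP0 hPM hE (by omega) hc
    (by
      have e : 6 * (D' + 1) - 2 = 6 * D' + 3 + 1 := by omega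
      rw [e] at hw
      exact hw) h0
  have hlead : ∀ {Q : ℤ[X]} {e : ℕ}, Q ≠ 0 → Q.natDegree * e = M → (Q ^ e).coeff M ≠ 0 := by
    intro Q e hQ h
    have : M = (Q ^ e).natDegree := by rw [natDegree_pow, mul_comm, h]
    rw [this]
    exact leadingCoeff_ne_zero.mpr (pow_ne_zero _ hQ)
  have hlow : ∀ {Q : ℤ[X]} {e : ℕ}, Q.natDegree * e ≤ M → Q.natDegree * e ≠ M → (Q ^ e).coeff M = 0 := by
    intro Q e h h'
    apply coeff_eq_zero_of_natDegree_lt
    rw [natDegree_pow, mul_comm]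
    omega
  have hcM : P.coeff M = 0 := coeff_eq_zero_of_natDegree_lt (by omega)
  rw [hcf] at hcM
  have hs0 : s ≠ 0 := by rcases hs with rfl | rfl <;> norm_num
  have ht0 : t ≠ 0 := by rcases ht with rfl | rfl <;> norm_num
  have hPQ : P.map (Int.castRingHom ℚ) = C (1 : ℚ) * (F.map (Int.castRingHom ℚ)) ^ l +
      C (s : ℚ) * (G.map (Int.castRingHom ℚ)) ^ m + C (-(t : ℚ)) * (H.map (Int.castRingHom ℚ)) ^ k := by
    rw [hP, Pf, Polynomial.map_sub, Polynomial.map_add, Polynomial.map_mul, Polynomial.map_mul,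
      Polynomial.map_pow, Polynomial.map_pow, Polynomial.map_pow, map_C, map_C, eq_intCast,
      eq_intCast, C_1, one_mul, C_neg]
    ring
  have hinj : Function.Injective (Int.castRingHom ℚ) := (Int.castRingHom ℚ).injective_int
  have hne : ∀ {P : ℤ[X]}, P ≠ 0 → P.map (Int.castRingHom ℚ) ≠ 0 := fun {P} hP =>
    (Polynomial.map_ne_zero_iff hinj).mpr hP
  by_cases c1 : F.natDegree * l = M <;> by_cases c2 : G.natDegree * m = M <;>
    by_cases c3 : H.natDegree * k = M
  · have := wron (c₁ := 1) (c₂ := (s : ℚ)) (c₃ := -(t : ℚ)) (D := D' + 1) (M := M)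
      (by exact_mod_cast neg_ne_zero.mpr ht0)
      hFG hFH hGH (hne hG) hl2 hm2 hk2 hPQ (by rw [map_natDegree']; exact hFD)
      (by rw [map_natDegree']; exact hGD) (by rw [map_natDegree']; exact hHD)
      (by rw [map_natDegree']; exact c1) (by rw [map_natDegree']; exact c3) (by omega) (by omega)
    rw [map_natDegree'] at this
    omega
  · have := wron (P := P.map (Int.castRingHom ℚ)) (c₁ := 1) (c₂ := -(t : ℚ)) (c₃ := (s : ℚ)) (D := D' + 1) (M := M)
      (by exact_mod_cast hs0)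
      hFH hFG hGH.symm (hne hH) hl2 hk2 hm2 (by rw [hPQ]; ring) (by rw [map_natDegree']; exact hFD)
      (by rw [map_natDegree']; exact hHD) (by rw [map_natDegree']; exact hGD)
      (by rw [map_natDegree']; exact c1) (by rw [map_natDegree']; exact c2) (by omega) (by omega)
    rw [map_natDegree'] at this
    omega
  · have := wron (c₁ := 1) (c₂ := (s : ℚ)) (c₃ := -(t : ℚ)) (D := D' + 1) (M := M)
      (by exact_mod_cast neg_ne_zero.mpr ht0)
      hFG hFH hGH (hne hG) hl2 hm2 hk2 hPQ (by rw [map_natDegree']; exact hFD)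
      (by rw [map_natDegree']; exact hGD) (by rw [map_natDegree']; exact hHD)
      (by rw [map_natDegree']; exact c1) (by rw [map_natDegree']; exact c3) (by omega) (by omega)
    rw [map_natDegree'] at this
    omega
  · rw [hlow hMG c2, hlow hMH c3] at hcM
    exact hlead hF c1 (by simpa using hcM)
  · have := wron (P := P.map (Int.castRingHom ℚ)) (c₁ := (s : ℚ)) (c₂ := 1) (c₃ := -(t : ℚ)) (D := D' + 1) (M := M)
      (by exact_mod_cast neg_ne_zero.mpr ht0)
      hFG.symm hGH hFH (hne hF) hm2 hl2 hk2 (by rw [hPQ]; ring) (by rw [map_natDegree']; exact hGD)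
      (by rw [map_natDegree']; exact hFD) (by rw [map_natDegree']; exact hHD)
      (by rw [map_natDegree']; exact c2) (by rw [map_natDegree']; exact c3) (by omega) (by omega)
    rw [map_natDegree'] at this
    omega
  · rw [hlow hMF c1, hlow hMH c3] at hcM
    refine hlead hG c2 ?_
    have h1 : s * (G ^ m).coeff M = 0 := by simpa using hcM
    exact (mul_eq_zero.mp h1).resolve_left hs0
  · rw [hlow hMF c1, hlow hMG c2] at hcM
    refine hlead hH c3 ?_
    have h1 : t * (H ^ k).coeff M = 0 := by simpa using hcM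
    exact (mul_eq_zero.mp h1).resolve_left ht0
  · rcases max_choice (max (F.natDegree * l) (G.natDegree * m)) (H.natDegree * k) with h | h
    · rcases max_choice (F.natDegree * l) (G.natDegree * m) with h' | h'
      · exact c1 (by rw [hM, h, h'])
      · exact c2 (by rw [hM, h, h'])
    · exact c3 (by rw [hM, h])

end Pool.Agent.N741.FD
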