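import Mathlib
import Pool.Agent.N741.FD.Core
import Pool.Agent.R477.FC.Fam

/-!
Only finitely many solutions have bases with few digits in a common large base.
-/

set_option autoImplicit false

namespace Pool.Agent.N741.FD

open Finset Polynomial
open Pool.Agent.N741.PB

/-- the degree is at most `D`, the coefficients have absolute value at most `B`, and the `p`-th
power of the leading coefficient has absolute value at most `A` -/
def Few (F : ℤ[X]) (D B p A : ℕ) : Prop :=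
  F.natDegree ≤ D ∧ (∀ j, (F.coeff j).natAbs ≤ B) ∧ F.leadingCoeff.natAbs ^ p ≤ A

theorem eval_bound {F : ℤ[X]} {D B w : ℕ} (hD : F.natDegree ≤ D) (hc : ∀ j, (F.coeff j).natAbs ≤ B)
    (hw : 2 ≤ w) : (F.eval (w : ℤ)).natAbs ≤ B * w ^ (D + 1) := by
  rw [eval_eq_sum_range' (Nat.lt_succ_of_le hD)]
  refine (natAbs_sum_le _ _).trans ?_
  calc ∑ j ∈ range (D + 1), (F.coeff j * (w : ℤ) ^ j).natAbs ≤ ∑ j ∈ range (D + 1), B * w ^ j := by
        apply sum_le_sum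
        intro j _
        rw [Int.natAbs_mul, Int.natAbs_pow, Int.natAbs_natCast]
        exact Nat.mul_le_mul_right _ (hc j)
    _ = B * ∑ j ∈ range (D + 1), w ^ j := by rw [mul_sum]
    _ ≤ B * w ^ (D + 1) := Nat.mul_le_mul_left _ (Nat.geomSum_lt hw (fun k hk => mem_range.mp hk)).le

theorem lead {F : ℤ[X]} {B w A l l' : ℕ} (hF : F ≠ 0) (hc : ∀ j, (F.coeff j).natAbs ≤ B)
    (hw : B + 3 ≤ w) (hA : 1 ≤ A) (hlc : F.leadingCoeff.natAbs ^ l ≤ A) (hv : F.eval (w : ℤ) ≠ 0)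
    (heq : (F.eval (w : ℤ)) ^ l' = (F.eval (w : ℤ)) ^ l) : F.leadingCoeff.natAbs ^ l' ≤ A := by
  rcases Nat.lt_or_ge (F.eval (w : ℤ)).natAbs 2 with h | h
  · have hd : F.natDegree = 0 := by
      by_contra h0
      have := factor_value hF hc (dvd_refl F) (Nat.pos_of_ne_zero h0) hw
      omega
    obtain ⟨c, hc'⟩ := natDegree_eq_zero.mp hd
    rw [← hc', eval_C] at h hv
    rw [← hc', leadingCoeff_C]
    have h1 : c.natAbs = 1 := by
      have := Int.natAbs_pos.mpr hv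
      omega
    rw [h1, one_pow]
    exact hA
  · have : l' = l := Int.pow_right_injective (by omega) heq
    rw [this]
    exact hlc

theorem log_bound {w D : ℕ} (hw : 2 ≤ w) (hD : 1 ≤ D) (hlog : 1 ≤ Real.log w) :
    (((D + 2) * (Nat.log 2 w + 1) : ℕ) : ℝ) ≤ 9 * (D * Real.log w + 2) := by
  have h5 : (Nat.log 2 w : ℝ) * Real.log 2 ≤ Real.log w := by
    rw [← Real.log_pow]
    apply Real.log_le_log (by positivity)
    exact_mod_cast Nat.pow_log_le_self 2 (by omega : w ≠ 0)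
  have h6 : (0.6931471803 : ℝ) < Real.log 2 := Real.log_two_gt_d9
  have h7 : (Nat.log 2 w : ℝ) + 1 ≤ 3 * Real.log w := by
    nlinarith [Nat.cast_nonneg (α := ℝ) (Nat.log 2 w)]
  have hD' : (1 : ℝ) ≤ D := by exact_mod_cast hD
  push_cast
  calc ((D : ℝ) + 2) * ((Nat.log 2 w : ℝ) + 1) ≤ (3 * D) * (3 * Real.log w) := by
        apply mul_le_mul (by linarith) h7 (by positivity) (by positivity)
    _ ≤ 9 * (D * Real.log w + 2) := by nlinarith

theorem few_digits : ∃ κ : ℕ, {v : ℕ × ℕ × ℕ | ∃ (x y z p q r w A B D : ℕ) (F G H : ℤ[X]),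
    0 < x ∧ 0 < y ∧ 0 < z ∧ Nat.Coprime x y ∧ 0 < p ∧ 0 < q ∧ 0 < r ∧
    q * r + r * p + p * q ≤ p * q * r ∧ x ^ p + y ^ q = z ^ r ∧ v = (x ^ p, y ^ q, z ^ r) ∧
    (0 < F.natDegree ∨ 0 < G.natDegree ∨ 0 < H.natDegree) ∧
    Few F D B p A ∧ Few G D B q A ∧ Few H D B r A ∧
    F.eval (w : ℤ) = x ∧ G.eval (w : ℤ) = y ∧ H.eval (w : ℤ) = z ∧
    (A : ℝ) * (B * (D * Real.log w + 2) ^ κ) ^ (6 * D - 2) ≤ w}.Finite := by
  obtain ⟨C₀, κ, hC⟩ := exps_int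
  refine ⟨κ + 1, ?_⟩
  obtain ⟨C₂, hC₂⟩ : ∃ C₂ : ℕ, C₂ = C₀ * 9 ^ κ + 7 := ⟨_, rfl⟩
  obtain ⟨w₀, hw₀⟩ : ∃ w₀ : ℕ, ∀ w : ℕ, w₀ ≤ w → 2 ≤ w ∧ 6 * (C₂ : ℝ) + 1 ≤ Real.log w := by
    have h1 : Filter.Tendsto (fun n : ℕ => Real.log (n : ℝ)) Filter.atTop Filter.atTop :=
      Real.tendsto_log_atTop.comp tendsto_natCast_atTop_atTop
    obtain ⟨w₁, hw₁⟩ := Filter.eventually_atTop.1 (h1.eventually_ge_atTop (6 * (C₂ : ℝ) + 1))
    exact ⟨w₁ + 2, fun w hw => ⟨by omega, hw₁ w (by omega)⟩⟩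
  obtain ⟨V, hV⟩ := Pool.Agent.R477.FC.vals_fin ((w₀ + 1) ^ (w₀ + 2))
  refine ((Set.finite_Iic V).prod ((Set.finite_Iic V).prod (Set.finite_Iic V))).subset ?_
  rintro v ⟨x, y, z, p, q, r, w, A, B, D, F, G, H, hx, hy, hz, hxy, hp, hq, hr, hpqr, heq, rfl,
    hpos, ⟨hFD, hFc, hFA⟩, ⟨hGD, hGc, hGA⟩, ⟨hHD, hHc, hHA⟩, hFx, hGy, hHz, hcond⟩
  -- first facts
  have hD : 1 ≤ D := by omega
  have hF0 : F ≠ 0 := by
    rintro rfl; rw [eval_zero] at hFx; exact hx.ne' (by exact_mod_cast hFx.symm)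
  have hG0 : G ≠ 0 := by
    rintro rfl; rw [eval_zero] at hGy; exact hy.ne' (by exact_mod_cast hGy.symm)
  have hH0 : H ≠ 0 := by
    rintro rfl; rw [eval_zero] at hHz; exact hz.ne' (by exact_mod_cast hHz.symm)
  have hlc : 1 ≤ F.leadingCoeff.natAbs := Int.natAbs_pos.mpr (leadingCoeff_ne_zero.mpr hF0)
  have hB : 1 ≤ B := hlc.trans (hFc F.natDegree)
  have hA : 1 ≤ A := (Nat.one_le_pow _ _ hlc).trans hFA
  have hlogw : 0 ≤ Real.log (w : ℝ) := Real.log_natCast_nonneg w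
  have hBr : (1 : ℝ) ≤ B := by exact_mod_cast hB
  have hDr : (1 : ℝ) ≤ D := by exact_mod_cast hD
  have hAr : (1 : ℝ) ≤ A := by exact_mod_cast hA
  set L : ℝ := D * Real.log w + 2 with hL
  have hL2 : 2 ≤ L := by
    have : 0 ≤ (D : ℝ) * Real.log w := by positivity
    linarith
  have hLκ : 2 ≤ L ^ (κ + 1) := hL2.trans (le_self_pow₀ (by linarith) (by omega))
  have hY : 2 * (B : ℝ) ≤ B * L ^ (κ + 1) := by nlinarith
  have hn : 4 ≤ 6 * D - 2 := by omega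
  have hYn : (2 * (B : ℝ)) ^ (6 * D - 2) ≤ w := by
    calc (2 * (B : ℝ)) ^ (6 * D - 2) ≤ (B * L ^ (κ + 1)) ^ (6 * D - 2) := by gcongr
      _ ≤ A * (B * L ^ (κ + 1)) ^ (6 * D - 2) := le_mul_of_one_le_left (by positivity) hAr
      _ ≤ w := hcond
  have hYn' : (2 * B) ^ (6 * D - 2) ≤ w := by exact_mod_cast hYn
  have hBw : B + 3 ≤ w := by
    have h1 : (2 * B) ^ 4 ≤ (2 * B) ^ (6 * D - 2) := Nat.pow_le_pow_right (by omega) hn
    have h2 : (2 * B) ^ 4 = 16 * B ^ 4 := by ring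
    have h3 : B ≤ B ^ 4 := Nat.le_self_pow (by norm_num) B
    omega
  have hDw : D ≤ w := by
    have h1 : 2 ^ D ≤ (2 * B) ^ (6 * D - 2) :=
      (Nat.pow_le_pow_left (by omega : 2 ≤ 2 * B) D).trans (Nat.pow_le_pow_right (by omega) (by omega))
    exact (Nat.lt_two_pow_self.le.trans h1).trans hYn'
  have hw2 : 2 ≤ w := by omega
  have hbase : ∀ {Q : ℤ[X]} {u : ℕ}, Q.natDegree ≤ D → (∀ j, (Q.coeff j).natAbs ≤ B) →
      Q.eval (w : ℤ) = u → u ≤ w ^ (D + 2) := by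
    intro Q u h1 h2 h3
    have h4 := eval_bound h1 h2 hw2
    rw [h3, Int.natAbs_natCast] at h4
    calc u ≤ B * w ^ (D + 1) := h4
      _ ≤ w * w ^ (D + 1) := Nat.mul_le_mul_right _ (by omega)
      _ = w ^ (D + 2) := by ring
  have hxb := hbase hFD hFc hFx
  have hyb := hbase hGD hGc hGy
  have hzb := hbase hHD hHc hHz
  have hsol : ISol (x : ℤ) y z p q r 1 1 := by
    refine ⟨by exact_mod_cast hx.ne', by exact_mod_cast hy.ne', by exact_mod_cast hz.ne',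
      Nat.isCoprime_iff_coprime.mpr hxy, hp, hq, hr, hpqr, Or.inl rfl, Or.inl rfl, ?_⟩
    rw [one_mul, one_mul]
    exact_mod_cast heq
  rcases Nat.lt_or_ge w w₀ with hw | hw
  · -- small bases
    have hsmall : ∀ {u : ℕ}, u ≤ w ^ (D + 2) → u ≤ (w₀ + 1) ^ (w₀ + 2) := by
      intro u hu
      calc u ≤ w ^ (D + 2) := hu
        _ ≤ (w₀ + 1) ^ (D + 2) := Nat.pow_le_pow_left (by omega) _
        _ ≤ (w₀ + 1) ^ (w₀ + 2) := Nat.pow_le_pow_right (by omega) (by omega)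
    obtain ⟨hp2, hq2, hr2⟩ := two_le_of hp hq hr hpqr
    have hxz : Nat.Coprime x z := Nat.isCoprime_iff_coprime.mp hsol.ac
    have hyz : Nat.Coprime y z := Nat.isCoprime_iff_coprime.mp hsol.bc
    obtain ⟨v1, v2, v3⟩ := hV x y z p q r 1 1 (-1) ⟨hx, hy, hz, hxy, hxz, hyz, hp2, hq2, hr2,
      Or.inl rfl, Or.inl rfl, Or.inr rfl, by
        have : (x : ℤ) ^ p + (y : ℤ) ^ q = (z : ℤ) ^ r := by exact_mod_cast heq
        linarith⟩ (hsmall hxb) (hsmall hyb) (hsmall hzb)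
    simp only [Set.mem_prod, Set.mem_Iic]
    exact ⟨v1, v2, v3⟩
  exfalso
  obtain ⟨-, hlog⟩ := hw₀ w hw
  have hC₂r : (7 : ℝ) ≤ C₂ := by
    have : 7 ≤ C₂ := by omega
    exact_mod_cast this
  -- the exponents
  set S := (D + 2) * (Nat.log 2 w + 1) with hS
  have hS2 : 2 ≤ S := by
    have h1 : 1 ≤ Nat.log 2 w + 1 := by omega
    calc 2 ≤ (D + 2) * 1 := by omega
      _ ≤ S := Nat.mul_le_mul_left _ h1
  have hwS : w ^ (D + 2) ≤ 2 ^ S := by
    calc w ^ (D + 2) ≤ (2 ^ (Nat.log 2 w + 1)) ^ (D + 2) :=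
          Nat.pow_le_pow_left (Nat.lt_pow_succ_log_self (by norm_num) w).le _
      _ = 2 ^ S := by rw [← pow_mul, mul_comm]
  obtain ⟨b1, b2, b3⟩ := hC S hS2 _ _ _ p q r 1 1 hsol (by rw [Int.natAbs_natCast]; exact hxb.trans hwS)
    (by rw [Int.natAbs_natCast]; exact hyb.trans hwS) (by rw [Int.natAbs_natCast]; exact hzb.trans hwS)
  obtain ⟨p', hp', e1, h2⟩ := hsol.red1 b1
  obtain ⟨q', hq', e2, h3⟩ := h2.red2 b2
  obtain ⟨r', hr', e3, h4⟩ := h3.red3 b3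
  set X := C₀ * S ^ κ + 7 with hX
  have hSL : (S : ℝ) ≤ 9 * L := log_bound hw2 hD (by linarith)
  have hXL : (X : ℝ) ≤ C₂ * L ^ κ := by
    have h5 : (1 : ℝ) ≤ L ^ κ := one_le_pow₀ (by linarith)
    calc (X : ℝ) = C₀ * (S : ℝ) ^ κ + 7 := by rw [hX]; push_cast; ring
      _ ≤ C₀ * (9 * L) ^ κ + 7 * L ^ κ := by
          have : (S : ℝ) ^ κ ≤ (9 * L) ^ κ := pow_le_pow_left₀ (by positivity) hSL _
          have h6 : (C₀ : ℝ) * (S : ℝ) ^ κ ≤ C₀ * (9 * L) ^ κ := by gcongr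
          linarith
      _ = C₂ * L ^ κ := by rw [hC₂, mul_pow]; push_cast; ring
  have hwbig : 2 * (3 * A * (X * D * B) ^ (6 * D - 2)) < w := by
    have h5 : 6 * ((X : ℝ) * D * B) < B * L ^ (κ + 1) := by
      have h6 : 6 * (C₂ : ℝ) * D < L := by
        have : 6 * (C₂ : ℝ) * D ≤ Real.log w * D := by
          apply mul_le_mul_of_nonneg_right _ (by positivity)
          linarith
        rw [hL]
        linarith
      have h7 : (0 : ℝ) < B * L ^ κ := by positivity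
      calc 6 * ((X : ℝ) * D * B) ≤ 6 * ((C₂ * L ^ κ) * D * B) := by gcongr
        _ = (6 * C₂ * D) * (B * L ^ κ) := by ring
        _ < L * (B * L ^ κ) := mul_lt_mul_of_pos_right h6 h7
        _ = B * L ^ (κ + 1) := by ring
    have h8 : (6 * ((X : ℝ) * D * B)) ^ (6 * D - 2) < (B * L ^ (κ + 1)) ^ (6 * D - 2) :=
      pow_lt_pow_left₀ h5 (by positivity) (by omega)
    have h9 : (6 : ℝ) ≤ 6 ^ (6 * D - 2) := le_self_pow₀ (by norm_num) (by omega)
    have h10 : 6 * ((X : ℝ) * D * B) ^ (6 * D - 2) ≤ (6 * ((X : ℝ) * D * B)) ^ (6 * D - 2) := by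
      rw [mul_pow (6 : ℝ)]
      exact mul_le_mul_of_nonneg_right h9 (by positivity)
    have h11 : 2 * (3 * (A : ℝ) * ((X : ℝ) * D * B) ^ (6 * D - 2)) < w := by
      calc 2 * (3 * (A : ℝ) * ((X : ℝ) * D * B) ^ (6 * D - 2))
          = A * (6 * ((X : ℝ) * D * B) ^ (6 * D - 2)) := by ring
        _ < A * (B * L ^ (κ + 1)) ^ (6 * D - 2) :=
            mul_lt_mul_of_pos_left (h10.trans_lt h8) (by linarith)
        _ ≤ w := hcond
    exact_mod_cast h11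
  -- the polynomials
  have hFv : F.eval (w : ℤ) ≠ 0 := by rw [hFx]; exact hsol.a0
  have hGv : G.eval (w : ℤ) ≠ 0 := by rw [hGy]; exact hsol.b0
  have hHv : H.eval (w : ℤ) ≠ 0 := by rw [hHz]; exact hsol.c0
  have l1 := lead (l' := p') hF0 hFc hBw hA hFA hFv (by rw [hFx]; exact e1)
  have l2 := lead (l' := q') hG0 hGc hBw hA hGA hGv (by rw [hGy]; exact e2)
  have l3 := lead (l' := r') hH0 hHc hBw hA hHA hHv (by rw [hHz]; exact e3)
  have cFG : IsCoprime (F.map (Int.castRingHom ℚ)) (G.map (Int.castRingHom ℚ)) :=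
    coprime_of_value hF0 hFc hBw (by rw [hFx, hGy]; exact hsol.ab)
  have cFH : IsCoprime (F.map (Int.castRingHom ℚ)) (H.map (Int.castRingHom ℚ)) :=
    coprime_of_value hF0 hFc hBw (by rw [hFx, hHz]; exact hsol.ac)
  have cGH : IsCoprime (G.map (Int.castRingHom ℚ)) (H.map (Int.castRingHom ℚ)) :=
    coprime_of_value hG0 hGc hBw (by rw [hGy, hHz]; exact hsol.bc)
  refine core hF0 hG0 hH0 hpos cFG cFH cGH h4.l0 h4.m0 h4.k0 h4.le (s := 1) (t := 1) (Or.inl rfl)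
    (Or.inl rfl) hA hB hD hp' hq' hr' hFD hGD hHD hFc hGc hHc l1 l2 l3 hwbig ?_
  have h5 := h4.eq
  simp only [Pf, eval_sub, eval_add, eval_mul, eval_C, eval_pow, hFx, hGy, hHz]
  linarith

end Pool.Agent.N741.FD
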